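import Pool.Agent.Helper92_BS.Base

/-! # BS squad: FILL -/

set_option autoImplicit false

namespace Pool.Agent.BS.H92

open Function Relation

section

variable {D V : Type} {T : TMap D V}

/-- component of `z` in the complement of `C` -/
def cp (T : TMap D V) (C : Set V) (z : V) : Set V := {y | T.Reach C z y}

theorem cp_self (C : Set V) (z : V) : z ∈ cp T C z := reach_refl _ _

theorem cp_sub {C : Set V} {z : V} (hz : z ∉ C) {y : V} (hy : y ∈ cp T C z) : y ∉ C :=
  reach_notMem hy hz

theorem cp_adj {C : Set V} {z y w : V} (hy : y ∈ cp T C z) (hw : w ∉ C) (h : T.Adj y w) :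
    w ∈ cp T C z := reach_step hy hw h

theorem cp_eq {C : Set V} {z y : V} (hz : z ∉ C) (hy : y ∈ cp T C z) : cp T C y = cp T C z := by
  ext w
  constructor
  · exact fun h => reach_trans hy h
  · exact fun h => reach_trans (reach_symm hy hz) h

theorem cp_bd {C : Set V} (hC : C.Finite) (z : V) :
    {d | T.lf d ∈ cp T C z ∧ T.rt d ∉ cp T C z}.Finite := by
  have h : {d | T.lf d ∈ cp T C z ∧ T.rt d ∉ cp T C z} ⊆
      T.al '' (⋃ v ∈ C, (T.star v : Set D)) := by
    rintro d ⟨h1, h2⟩
    have h3 : T.rt d ∈ C := by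
      by_contra h3
      exact h2 (cp_adj h1 h3 (TMap.adj_lf_rt d))
    refine ⟨T.al d, Set.mem_iUnion₂.2 ⟨T.rt d, h3, ?_⟩, T.al_al d⟩
    rw [Finset.mem_coe, T.mem_star]
    rfl
  refine Set.Finite.subset (Set.Finite.image _ ?_) h
  exact hC.biUnion fun v _ => Finset.finite_toSet _

/-- one of the components is infinite -/
theorem exists_inf [Infinite V] {C : Set V} (hC : C.Finite) (hne : C.Nonempty) :
    ∃ z, z ∉ C ∧ (cp T C z).Infinite := by
  by_contra hcon
  push Not at hcon
  obtain ⟨x, hx⟩ := hne
  have hfin : (C ∪ ⋃ a ∈ C, ⋃ b ∈ {b | T.Adj a b ∧ b ∉ C}, cp T C b).Finite := by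
    refine hC.union (hC.biUnion fun a _ => Set.Finite.biUnion ((adj_finite (T := T) a).subset
      fun b hb => hb.1) ?_)
    intro b hb
    have := hcon b hb.2
    simpa using this
  apply hfin.not_infinite
  refine Set.Infinite.mono ?_ Set.infinite_univ
  intro z _
  by_cases hz : z ∈ C
  · exact Or.inl hz
  · right
    obtain ⟨u, v, hu, hv, hadj, hr, -⟩ := reach_cross (S := Cᶜ) (vconn (T := T) z x) hz (by simpa using hx)
    -- take the first exit from the component of z
    obtain ⟨u', v', hu', hv', hadj', -, -⟩ :=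
      reach_cross (S := cp T C z) (vconn (T := T) z x) (cp_self C z) (fun h => cp_sub hz h hx)
    have hv'' : v' ∈ C := by
      by_contra h
      exact hv' (cp_adj hu' h hadj')
    refine Set.mem_iUnion₂.2 ⟨v', hv'', Set.mem_iUnion₂.2 ⟨u', ⟨hadj'.symm, cp_sub hz hu'⟩, ?_⟩⟩
    rw [cp_eq hz hu']
    exact cp_self C z

open Classical in
/-- the count of a dart which is passed exactly once -/
theorem cnt_eq_zero {p : ℕ → D} {n : ℕ} {d : D} (h1 : ∀ k < n, p k ≠ d) (h2 : ∀ k < n, p k ≠ T.al d) :
    T.cnt p n d = 0 := by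
  unfold TMap.cnt
  apply Finset.sum_eq_zero
  intro k hk
  rw [Finset.mem_range] at hk
  rw [if_neg (h1 k hk), if_neg (h2 k hk)]
  rfl

end

theorem fill (hOE : OEStmt) : FillStmt := by
  intro D V T hP hinf c x hx hfin
  classical
  set C : Set V := T.clu c x with hC
  have hxC : x ∈ C := mem_clu_self hx
  obtain ⟨z, hz, hzinf⟩ := exists_inf (T := T) hfin ⟨x, hxC⟩
  set U : Set V := cp T C z with hU
  have hUfin : Uᶜ.Finite := by
    rcases hOE D V T hP U (cp_bd hfin z) with h | h
    · exact absurd h hzinf
    · exact h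
  set H : Finset V := hUfin.toFinset with hH
  have hHm : ∀ v, v ∈ H ↔ v ∉ U := fun v => by simp [hH]
  have hHc : (H : Set V)ᶜ = U := by
    ext v
    simp [hHm]
  have hHs : (H : Set V) = Uᶜ := by
    ext v
    simp [hHm]
  have hCU : ∀ v ∈ C, v ∉ U := fun v hv hv' => cp_sub hz hv' hv
  -- boundary darts
  have hbd : ∀ d, T.lf d ∈ H → T.rt d ∉ H → T.lf d ∈ C ∧ c (T.rt d) = false := by
    intro d h1 h2
    rw [hHm] at h1 h2
    rw [not_not] at h2
    have h3 : T.lf d ∈ C := by
      by_contra h3
      exact h1 (cp_adj h2 h3 (TMap.adj_lf_rt d).symm)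
    refine ⟨h3, ?_⟩
    by_contra h4
    have h5 : c (T.rt d) = true := by simpa using h4
    exact hCU _ (clu_adj h3 h5 (TMap.adj_lf_rt d)) h2
  -- H is connected
  have hto : ∀ a ∈ H, T.Reach (H : Set V)ᶜ a x := by
    intro a ha
    rw [hHc]
    by_cases haC : a ∈ C
    · exact reach_mono (fun v hv hv' => hCU v hv' hv) (clu_reach haC hxC)
    · obtain ⟨u, v, hu, hv, hadj, -, -⟩ :=
        reach_cross (S := cp T C a) (vconn (T := T) a x) (cp_self C a) (fun h => cp_sub haC h hxC)
      have hvC : v ∈ C := by
        by_contra h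
        exact hv (cp_adj hu h hadj)
      have haU : a ∉ U := (hHm a).1 ha
      have hdis : ∀ w, w ∈ cp T C a → w ∉ U := by
        intro w hw hw'
        apply haU
        rw [hU, ← cp_eq hz hw', cp_eq haC hw]
        exact cp_self C a
      have h1 : T.Reach U a u := by
        have hu' : T.Reach C a u := hu
        have key : ∀ w, T.Reach C a w → T.Reach U a w := by
          intro w hw
          induction hw with
          | refl => exact reach_refl _ _
          | @tail p q h1 h2 ih =>
            exact reach_step ih (hdis q (ReflTransGen.tail h1 h2)) h2.2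
        exact key u hu'
      have h2 : T.Reach U a v := reach_step h1 (hCU v hvC) hadj
      exact reach_trans h2 (reach_mono (fun v hv hv' => hCU v hv' hv) (clu_reach hvC hxC))
  have hconn : T.Conn (H : Set V) := by
    intro a ha b hb
    have hb' := hto b (by exact_mod_cast hb)
    exact reach_trans (hto a (by exact_mod_cast ha)) (reach_symm hb' (by simpa using hb))
  have hconn' : T.Conn (H : Set V)ᶜ := by
    rw [hHc]
    intro a ha b hb
    have key : ∀ w, T.Reach C z w → T.Reach Uᶜ z w := by
      intro w hw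
      induction hw with
      | refl => exact reach_refl _ _
      | @tail p q h1 h2 ih =>
        exact reach_step ih (by
          rw [Set.notMem_compl_iff]
          exact ReflTransGen.tail h1 h2) h2.2
    exact reach_trans (reach_symm (key a ha) (by
      rw [Set.notMem_compl_iff]; exact cp_self C z)) (key b hb)
  -- the interface map preserves the boundary darts
  have hstate : ∀ d, T.lf d ∈ H → T.rt d ∉ H → T.State c d := fun d h1 h2 =>
    ⟨clu_open (hbd d h1 h2).1, (hbd d h1 h2).2⟩
  have hnx : ∀ d, T.lf d ∈ H → T.rt d ∉ H → T.lf (T.nx c d) ∈ H ∧ T.rt (T.nx c d) ∉ H := by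
    intro d h1 h2
    have hbd' := hbd d h1 h2
    unfold TMap.nx
    by_cases ht : T.tau d ∈ H
    · have htC : T.tau d ∈ C := by
        by_contra h3
        have h4 : T.rt d ∈ U := by
          by_contra h5
          exact h2 ((hHm _).2 h5)
        exact (hHm _).1 ht (cp_adj h4 h3 (TMap.adj_tau_rt d).symm)
      rw [if_pos (clu_open htC), T.lf_rho, T.rt_rho]
      exact ⟨ht, h2⟩
    · have htc : c (T.tau d) = false := by
        by_contra h4
        have h5 : c (T.tau d) = true := by simpa using h4
        have h6 := clu_adj hbd'.1 h5 (TMap.adj_lf_tau d)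
        exact ht ((hHm _).2 (hCU _ h6))
      rw [if_neg (by rw [htc]; simp), T.lf_lam, T.rt_lam]
      exact ⟨h1, ht⟩
  have hit : ∀ d, T.lf d ∈ H → T.rt d ∉ H → ∀ k, T.lf ((T.nx c)^[k] d) ∈ H ∧
      T.rt ((T.nx c)^[k] d) ∉ H := by
    intro d h1 h2 k
    induction k with
    | zero => exact ⟨h1, h2⟩
    | succ k ih =>
      rw [Function.iterate_succ_apply']
      exact hnx _ ih.1 ih.2
  have hBfin : {d | T.lf d ∈ H ∧ T.rt d ∉ H}.Finite := by
    refine Set.Finite.subset (H.finite_toSet.biUnion fun v _ => (T.star v).finite_toSet) ?_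
    rintro d ⟨h1, h2⟩
    refine Set.mem_iUnion₂.2 ⟨T.lf d, h1, ?_⟩
    rw [Finset.mem_coe, T.mem_star]
  -- the loops
  have hloop : ∀ d, T.lf d ∈ H → T.rt d ∉ H → ∃ ℓ, T.IsLoop c d ℓ H := by
    intro s hs1 hs2
    have hss := hstate s hs1 hs2
    -- periodicity
    have hper : ∃ n, 0 < n ∧ (T.nx c)^[n] s = s := by
      have hni : ¬ Injective (fun k : ℕ => (T.nx c)^[k] s) := by
        intro hi
        have h1 : (Set.range fun k : ℕ => (T.nx c)^[k] s).Infinite := Set.infinite_range_of_injective hi
        apply h1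
        refine hBfin.subset ?_
        rintro _ ⟨k, rfl⟩
        exact hit s hs1 hs2 k
      rw [Injective] at hni
      push Not at hni
      obtain ⟨i, j, hij, hne⟩ := hni
      wlog hlt : i < j generalizing i j
      · exact this j i hij.symm hne.symm (by omega)
      refine ⟨j - i, by omega, ?_⟩
      have h2 : (T.nx c)^[j] s = (T.nx c)^[i] ((T.nx c)^[j - i] s) := by
        rw [← Function.iterate_add_apply]
        congr 1
        omega
      have h3 : ∀ k (t : D), T.State c t → (T.pv c)^[k] ((T.nx c)^[k] t) = t := by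
        intro k t ht
        have := ht.st_sub_nat (k : ℤ) k
        rw [TMap.st_natCast] at this
        rw [← this]
        simp
      have h4 := h3 i _ (hss.iterate_nx (j - i))
      rw [← h2, ← hij, h3 i s hss] at h4
      exact h4.symm
    set ℓ := Nat.find hper with hℓ
    obtain ⟨hℓ0, hℓs⟩ := Nat.find_spec hper
    have hmin : ∀ m, 0 < m → m < ℓ → (T.nx c)^[m] s ≠ s := fun m h1 h2 h3 =>
      Nat.find_min hper h2 ⟨h1, h3⟩
    have h3 : ∀ k (t : D), T.State c t → (T.pv c)^[k] ((T.nx c)^[k] t) = t := by
      intro k t ht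
      have := ht.st_sub_nat (k : ℤ) k
      rw [TMap.st_natCast] at this
      rw [← this]
      simp
    have hdist : ∀ i j : ℕ, i < j → j < ℓ → (T.nx c)^[i] s ≠ (T.nx c)^[j] s := by
      intro i j hij hj he
      have h2 : (T.nx c)^[j] s = (T.nx c)^[i] ((T.nx c)^[j - i] s) := by
        rw [← Function.iterate_add_apply]
        congr 1
        omega
      have h4 := h3 i _ (hss.iterate_nx (j - i))
      rw [← h2, ← he, h3 i s hss] at h4
      exact hmin (j - i) (by omega) (by omega) h4.symm
    refine ⟨ℓ, hℓ0, hss, hℓs, hdist, ?_⟩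
    -- the potential
    set p : ℕ → D := fun k => (T.nx c)^[k] s with hp
    have hturn : T.IsTurn p ℓ := by
      intro k _
      simp only [hp, Function.iterate_succ_apply']
      change (if c (T.tau ((T.nx c)^[k] s)) then T.rho ((T.nx c)^[k] s) else
        T.lam ((T.nx c)^[k] s)) = _ ∨ (if c (T.tau ((T.nx c)^[k] s)) then
        T.rho ((T.nx c)^[k] s) else T.lam ((T.nx c)^[k] s)) = _
      split_ifs
      · exact Or.inr rfl
      · exact Or.inl rfl
    obtain ⟨χ, hχ, hcnt⟩ := hP p ℓ hturn (by simp only [hp]; exact hℓs)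
    have hpb : ∀ k, T.lf (p k) ∈ H ∧ T.rt (p k) ∉ H := fun k => hit s hs1 hs2 k
    have hsame : ∀ u v, (u ∈ H ↔ v ∈ H) → T.Adj u v → χ u = χ v := by
      rintro u v huv ⟨d, rfl, rfl⟩
      have h0 : T.cnt p ℓ d = 0 := by
        apply cnt_eq_zero
        · intro k _ h
          have := hpb k
          rw [h] at this
          exact this.2 (huv.1 this.1)
        · intro k _ h
          have := hpb k
          rw [h] at this
          exact this.2 (by rw [T.rt_al]; exact huv.2 this.1)
      have h1 := hcnt d
      rw [h0] at h1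
      linarith
    have hχU : ∀ u v, u ∉ H → v ∉ H → χ u = χ v := by
      intro u v hu hv
      refine reach_const (T := T) (Z := (H : Set V)) ?_ (?_ : T.Reach (H : Set V) u v) (by exact_mod_cast hu)
      · intro a b ha hb hab
        exact hsame a b ⟨fun h => absurd h (by exact_mod_cast ha),
          fun h => absurd h (by exact_mod_cast hb)⟩ hab
      · have := hconn' u (by simpa using hu) v (by simpa using hv)
        rwa [compl_compl] at this
    have hχH : ∀ u v, u ∈ H → v ∈ H → χ u = χ v := by
      intro u v hu hv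
      refine reach_const (T := T) (Z := (H : Set V)ᶜ) ?_ (hconn u (by exact_mod_cast hu) v
        (by exact_mod_cast hv)) (by simpa using hu)
      intro a b ha hb hab
      have ha' : a ∈ H := by simpa using ha
      have hb' : b ∈ H := by simpa using hb
      exact hsame a b ⟨fun _ => hb', fun _ => ha'⟩ hab
    have hχ0 : ∀ u, u ∉ H → χ u = 0 := by
      intro u hu
      have h1 : (U \ support χ).Infinite := hzinf.sdiff hχ
      obtain ⟨w, hw1, hw2⟩ := h1.nonempty
      have hw3 : w ∉ H := fun h => (hHm w).1 h hw1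
      rw [hχU u w hu hw3]
      simpa using hw2
    have hcs : T.cnt p ℓ s = 1 := by
      unfold TMap.cnt
      have h1 : ∀ k ∈ Finset.range ℓ, ((if p k = s then (1 : ℤ) else 0) -
          (if p k = T.al s then 1 else 0)) = if k = 0 then 1 else 0 := by
        intro k hk
        rw [Finset.mem_range] at hk
        have h2 : p k ≠ T.al s := by
          intro h
          have := hpb k
          rw [h] at this
          exact this.2 (by rw [T.rt_al]; exact hs1)
        rw [if_neg h2, sub_zero]
        by_cases hk0 : k = 0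
        · rw [if_pos hk0, if_pos (by rw [hk0]; rfl)]
        · rw [if_neg hk0, if_neg (hmin k (by omega) hk)]
      rw [Finset.sum_congr rfl h1, Finset.sum_ite_eq' (Finset.range ℓ) 0 (fun _ => (1 : ℤ)),
        if_pos (Finset.mem_range.2 hℓ0)]
    have hχ1 : ∀ u, u ∈ H → χ u = 1 := by
      intro u hu
      rw [hχH u (T.lf s) hu hs1]
      have := hcnt s
      rw [hcs, hχ0 _ hs2] at this
      linarith
    intro d
    constructor
    · rintro ⟨h1, h2⟩
      by_contra h4
      push Not at h4
      have h5 : T.cnt p ℓ d = 0 := by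
        apply cnt_eq_zero
        · exact h4
        · intro k _ h
          have := hpb k
          rw [h] at this
          exact h2 this.1
      have h6 := hcnt d
      rw [h5, hχ1 _ h1, hχ0 _ h2] at h6
      norm_num at h6
    · rintro ⟨k, _, rfl⟩
      exact hit s hs1 hs2 k
  refine ⟨H, ?_, hconn, hconn', hbd, ?_, hloop⟩
  · intro v hv
    exact (hHm v).2 (hCU v hv)
  · intro d d' h1 h2 h1' h2'
    obtain ⟨ℓ, hℓ⟩ := hloop d h1 h2
    obtain ⟨k, _, hk⟩ := (hℓ.2.2.2.2 d').1 ⟨h1', h2'⟩
    rw [← hk]
    have hs := hstate d h1 h2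
    have key : ∀ k, T.Reach {v | c v = true} (T.rt d) (T.rt ((T.nx c)^[k] d)) := by
      intro k
      induction k with
      | zero => exact reach_refl _ _
      | succ k ih =>
        rw [Function.iterate_succ_apply']
        have hk := hs.iterate_nx k
        unfold TMap.nx
        split_ifs with h
        · rw [T.rt_rho]
          exact ih
        · rw [T.rt_lam]
          refine reach_step ih ?_ (TMap.adj_tau_rt _).symm
          simpa using h
    exact key k

end Pool.Agent.BS.H92
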