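import Pool.Agent.Helper92_BS.Base

/-! # BS squad: NEST -/

set_option autoImplicit false

namespace Pool.Agent.BS.H92

open Function Relation

section

variable {D V : Type}

/-- the color `b` as `true` -/
def cb (b : Bool) (c : V → Bool) : V → Bool := fun v => if b then c v else !(c v)

theorem cb_false {b : Bool} {c : V → Bool} {v : V} : cb b c v = false ↔ c v = !b := by
  cases b <;> simp [cb]

theorem cb_true {b : Bool} {c : V → Bool} {v : V} : cb b c v = true ↔ c v = b := by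
  cases b <;> simp [cb]

/-- filled clusters of the color `b` -/
structure Gd (T : TMap D V) (c : V → Bool) (b : Bool) (H : Finset V) : Prop where
  ne : H.Nonempty
  conn : T.Conn (H : Set V)ᶜ
  bd : ∀ d, T.lf d ∈ H → T.rt d ∉ H → c (T.rt d) = !b
  reach : ∀ d d', T.lf d ∈ H → T.rt d ∉ H → T.lf d' ∈ H → T.rt d' ∉ H →
    T.Reach {v | c v = b} (T.rt d) (T.rt d')
  loop : b = true → ∀ d, T.lf d ∈ H → T.rt d ∉ H → ∃ ℓ, T.IsLoop c d ℓ H

theorem fillb (hF : FillStmt) (T : TMap D V) (hP : T.Planar) (hinf : Infinite V) (c : V → Bool)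
    (b : Bool) (x : V) (hx : c x = b) (hfin : (T.clu (cb b c) x).Finite) :
    ∃ H, Gd T c b H ∧ T.clu (cb b c) x ⊆ H := by
  have hx' : cb b c x = true := cb_true.2 hx
  obtain ⟨H, h1, -, h3, h4, h5, h6⟩ := hF D V T hP hinf (cb b c) x hx' hfin
  refine ⟨H, ⟨⟨x, by exact_mod_cast h1 (mem_clu_self hx')⟩, h3, ?_, ?_, ?_⟩, h1⟩
  · intro d hd1 hd2
    exact cb_false.1 (h4 d hd1 hd2).2
  · intro d d' hd1 hd2 hd1' hd2'
    have := h5 d d' hd1 hd2 hd1' hd2'
    refine reach_mono ?_ this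
    intro v hv
    exact cb_true.2 hv
  · intro hb d hd1 hd2
    subst hb
    exact h6 d hd1 hd2

theorem grow (hF : FillStmt) (T : TMap D V) (hP : T.Planar) (hinf : Infinite V) (c : V → Bool)
    (hfin : ∀ b x, (T.clu (cb b c) x).Finite) {b : Bool} {H : Finset V} (hH : Gd T c b H) :
    ∃ H', Gd T c (!b) H' ∧ H ⊆ H' ∧ ∀ u ∈ H, ∀ v, T.Adj u v → v ∈ H' := by
  classical
  obtain ⟨d0, h1, h2⟩ := exists_bd (T := T) H hH.ne
  obtain ⟨H', hH', hsub⟩ := fillb hF T hP hinf c (!b) (T.rt d0) (hH.bd d0 h1 h2) (hfin _ _)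
  have hout : ∀ d, T.lf d ∈ H → T.rt d ∉ H → T.rt d ∈ H' := by
    intro d hd1 hd2
    have h3 : T.rt d ∈ T.clu (cb (!b) c) (T.rt d0) := by
      refine ⟨cb_true.2 (hH.bd d0 h1 h2), ?_⟩
      refine reach_mono ?_ (hH.reach d0 d h1 h2 hd1 hd2)
      intro v hv
      have := cb_false.1 hv
      simpa using this
    exact_mod_cast hsub h3
  have hHH : H ⊆ H' := by
    intro h hh
    by_contra hcon
    obtain ⟨w, hw⟩ := Infinite.exists_notMem_finset (H ∪ H')
    rw [Finset.mem_union, not_or] at hw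
    have hr := hH'.conn h (by simpa using hcon) w (by simpa using hw.2)
    rw [compl_compl] at hr
    obtain ⟨u, v, hu, hv, ⟨d, rfl, rfl⟩, -, hv'⟩ :=
      reach_cross (S := (H : Set V)) hr (by exact_mod_cast hh) (by exact_mod_cast hw.1)
    exact hv' (by exact_mod_cast hout d (by exact_mod_cast hu) (by exact_mod_cast hv))
  refine ⟨H', hH', hHH, ?_⟩
  rintro u hu v ⟨d, rfl, rfl⟩
  by_cases hv : T.rt d ∈ H
  · exact hHH hv
  · exact hout d hu hv

theorem reachAll (hF : FillStmt) (T : TMap D V) (hP : T.Planar) (hinf : Infinite V) (c : V → Bool)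
    (hfin : ∀ b x, (T.clu (cb b c) x).Finite) {b : Bool} {H : Finset V} (hH : Gd T c b H) (v : V) :
    ∃ b' H', Gd T c b' H' ∧ H ⊆ H' ∧ v ∈ H' := by
  obtain ⟨u, hu⟩ := hH.ne
  have h := vconn (T := T) u v
  induction h with
  | refl => exact ⟨b, H, hH, Finset.Subset.refl _, hu⟩
  | @tail p q h1 h2 ih =>
    obtain ⟨b', H', hH', hs, hp⟩ := ih
    obtain ⟨H'', hH'', hs', ha⟩ := grow hF T hP hinf c hfin hH'
    exact ⟨!b', H'', hH'', hs.trans hs', ha p hp q h2.2⟩

end

theorem nest (hF : FillStmt) : NestStmt := by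
  intro D V T hP hinf c hc1 hc2 F
  classical
  have hfin : ∀ b x, (T.clu (cb b c) x).Finite := by
    intro b x
    cases b
    · exact hc2 x
    · exact hc1 x
  have hex : ∃ b H, Gd T c b H ∧ F ⊆ H := by
    induction F using Finset.induction_on with
    | empty =>
      obtain ⟨o, -⟩ := Infinite.exists_notMem_finset (∅ : Finset V)
      obtain ⟨H, hH, -⟩ := fillb hF T hP hinf c (c o) o rfl (hfin _ _)
      exact ⟨c o, H, hH, Finset.empty_subset _⟩
    | insert v F _ ih =>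
      obtain ⟨b, H, hH, hs⟩ := ih
      obtain ⟨b', H', hH', hs', hv⟩ := reachAll hF T hP hinf c hfin hH v
      exact ⟨b', H', hH', Finset.insert_subset hv (hs.trans hs')⟩
  obtain ⟨b, H, hH, hs⟩ := hex
  cases b with
  | true => exact ⟨H, hs, hH.loop rfl⟩
  | false =>
    obtain ⟨H', hH', hs', -⟩ := grow hF T hP hinf c hfin hH
    exact ⟨H', hs.trans hs', hH'.loop rfl⟩

end Pool.Agent.BS.H92
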