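import Pool.Agent.Helper92_BS.Base

/-! # BS squad: RAY -/

set_option autoImplicit false

namespace Pool.Agent.BS.H92

open Function Relation

variable {D V : Type} (T : TMap D V)

/-- the simple graph -/
def gr : SimpleGraph V where
  Adj := T.Adj
  symm := ⟨fun _ _ h => TMap.Adj.symm h⟩
  loopless := ⟨fun _ ⟨d, h1, h2⟩ => T.lf_ne_rt d (h1.trans h2.symm)⟩

theorem gr_conn (u v : V) : (gr T).Reachable u v := by
  have h := vconn (T := T) u v
  induction h with
  | refl => exact SimpleGraph.Reachable.refl _
  | @tail b c h1 h2 ih => exact ih.trans (SimpleGraph.Adj.reachable (show (gr T).Adj b c from h2.2))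

theorem gr_connected (o : V) : (gr T).Connected :=
  haveI : Nonempty V := ⟨o⟩
  SimpleGraph.Connected.mk (fun u v => gr_conn T u v)

/-- descendants of `v` -/
def Desc (o v : V) : Set V := {w | (gr T).dist o w = (gr T).dist o v + (gr T).dist v w}

theorem step [Infinite V] (o v : V) (h : (Desc T o v).Infinite) :
    ∃ w, T.Adj v w ∧ (gr T).dist o w = (gr T).dist o v + 1 ∧ (Desc T o w).Infinite := by
  by_contra hcon
  push Not at hcon
  apply h
  have hc := gr_connected T o
  have hfin : (⋃ w ∈ {w | T.Adj v w ∧ (gr T).dist o w = (gr T).dist o v + 1}, Desc T o w).Finite := by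
    refine Set.Finite.biUnion ((adj_finite (T := T) v).subset fun w hw => hw.1) ?_
    intro w hw
    have := hcon w hw.1 hw.2
    simpa using this
  refine (hfin.union (Set.finite_singleton v)).subset ?_
  intro w hw
  by_cases hvw : w = v
  · exact Or.inr hvw
  · left
    have hw' : (gr T).dist o w = (gr T).dist o v + (gr T).dist v w := hw
    obtain ⟨p, hp⟩ := hc.exists_walk_length_eq_dist v w
    cases p with
    | nil => exact absurd rfl hvw
    | @cons _ u _ hadj q =>
      rw [SimpleGraph.Walk.length_cons] at hp
      have h1 : (gr T).dist u w ≤ q.length := SimpleGraph.dist_le q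
      have h2 : (gr T).dist o w ≤ (gr T).dist o u + (gr T).dist u w := hc.dist_triangle
      have h3 : (gr T).dist o u ≤ (gr T).dist o v + (gr T).dist v u := hc.dist_triangle
      have h4 : (gr T).dist v u = 1 := SimpleGraph.dist_eq_one_iff_adj.2 hadj
      have h5 : (gr T).dist o u = (gr T).dist o v + 1 := by omega
      refine Set.mem_iUnion₂.2 ⟨u, ⟨hadj, h5⟩, ?_⟩
      change (gr T).dist o w = (gr T).dist o u + (gr T).dist u w
      omega

theorem ray : RayStmt := by
  intro D V T hV o
  classical
  have h0 : (Desc T o o).Infinite := by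
    have : Desc T o o = Set.univ := by
      ext w
      simp [Desc]
    rw [this]
    exact Set.infinite_univ
  choose! f hf1 hf2 hf3 using fun v (h : (Desc T o v).Infinite) => step T o v h
  set g : ℕ → V := fun n => f^[n] o with hg
  have hinf : ∀ n, (Desc T o (g n)).Infinite := by
    intro n
    induction n with
    | zero => exact h0
    | succ n ih =>
      simp only [hg, Function.iterate_succ_apply']
      exact hf3 _ ih
  have hdist : ∀ n, (gr T).dist o (g n) = n := by
    intro n
    induction n with
    | zero => simp [hg]
    | succ n ih =>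
      have h1 := hf2 (g n) (hinf n)
      simp only [hg, Function.iterate_succ_apply'] at h1 ⊢
      rw [h1]
      simp only [hg] at ih
      rw [ih]
  have hadj : ∀ n, T.Adj (g n) (g (n + 1)) := by
    intro n
    have h1 := hf1 (g n) (hinf n)
    simp only [hg, Function.iterate_succ_apply'] at h1 ⊢
    exact h1
  choose e he1 he2 using hadj
  refine ⟨e, by rw [he1]; rfl, fun n => by rw [he2, he1], ?_⟩
  intro m n hmn
  simp only [he1] at hmn
  have := hdist m
  rw [hmn, hdist n] at this
  exact this.symm

end Pool.Agent.BS.H92
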