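import Pool.Agent.Helper92_BS.Base

/-! # BS squad: RAYLOOP -/

set_option autoImplicit false

namespace Pool.Agent.BS.H92

open Function Relation

/-- first exit of a ray from a finite set -/
theorem exit {D V : Type} (T : TMap D V) (e : ℕ → D) (he : ∀ n, T.rt (e n) = T.lf (e (n + 1)))
    (hi : Injective (fun n => T.lf (e n))) (H : Finset V) (h0 : T.lf (e 0) ∈ H) :
    ∃ n, (∀ k ≤ n, T.lf (e k) ∈ H) ∧ T.rt (e n) ∉ H ∧ n + 1 ≤ H.card := by
  classical
  have hex : ∃ n, T.lf (e n) ∉ H := by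
    by_contra hcon
    push Not at hcon
    have h1 : (Set.range fun n => T.lf (e n)).Infinite := Set.infinite_range_of_injective hi
    apply h1
    refine H.finite_toSet.subset ?_
    rintro _ ⟨n, rfl⟩
    exact hcon n
  set N := Nat.find hex with hN
  have hN1 : T.lf (e N) ∉ H := Nat.find_spec hex
  have hN2 : ∀ k, k < N → T.lf (e k) ∈ H := fun k hk => by
    have := Nat.find_min hex hk
    simpa using this
  have hN0 : N ≠ 0 := by
    intro h
    rw [h] at hN1
    exact hN1 h0
  obtain ⟨n, hn⟩ := Nat.exists_eq_succ_of_ne_zero hN0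
  refine ⟨n, fun k hk => hN2 k (by omega), ?_, ?_⟩
  · rw [he, show n + 1 = N by omega]
    exact hN1
  · have h1 : ((Finset.range (n + 1)).image fun k => T.lf (e k)) ⊆ H := by
      intro v hv
      obtain ⟨k, hk, rfl⟩ := Finset.mem_image.1 hv
      rw [Finset.mem_range] at hk
      exact hN2 k (by omega)
    have h2 := Finset.card_le_card h1
    rw [Finset.card_image_of_injective _ hi, Finset.card_range] at h2
    exact h2

theorem rayloop (hF : FillStmt) (hN : NestStmt) (hL : LoopStmt) : RayLoopStmt := by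
  intro D V T Δ K θ e hP hD hθ he hi
  have hinf : Infinite V := Infinite.of_injective _ hi
  constructor
  · intro c N hc hfin hcard
    obtain ⟨H, h1, -, -, -, -, h6⟩ := hF D V T hP hinf c _ hc hfin
    have h0 : T.lf (e 0) ∈ H := by exact_mod_cast h1 (mem_clu_self hc)
    obtain ⟨n, hn1, hn2, hn3⟩ := exit T e he hi H h0
    obtain ⟨ℓ, hℓ⟩ := h6 (e n) (hn1 n le_rfl) hn2
    have hcl := (hL D V T Δ K θ c (e n) ℓ H hP hD hθ hℓ).1
    refine ⟨n, ℓ, H, hn3.trans hcl, ?_, hℓ⟩
    have h2 : (T.clu c (T.lf (e 0))).ncard ≤ H.card := by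
      have := Set.ncard_le_ncard h1 H.finite_toSet
      rwa [Set.ncard_coe_finset] at this
    omega
  · intro c hc1 hc2 N
    classical
    obtain ⟨H, hsub, h6⟩ := hN D V T hP hinf c hc1 hc2
      ((Finset.range (N + 1)).image fun k => T.lf (e k))
    have hmem : ∀ k ≤ N, T.lf (e k) ∈ H := fun k hk =>
      hsub (Finset.mem_image.2 ⟨k, Finset.mem_range.2 (by omega), rfl⟩)
    obtain ⟨n, hn1, hn2, hn3⟩ := exit T e he hi H (hmem 0 (Nat.zero_le _))
    obtain ⟨ℓ, hℓ⟩ := h6 (e n) (hn1 n le_rfl) hn2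
    have hcl := (hL D V T Δ K θ c (e n) ℓ H hP hD hθ hℓ).1
    refine ⟨n, ℓ, H, ?_, hn3.trans hcl, hℓ⟩
    by_contra hlt
    push Not at hlt
    rw [he] at hn2
    exact hn2 (hmem (n + 1) (by omega))

end Pool.Agent.BS.H92
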