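import Pool.Agent.Helper47_BS.StmtsP

/-! # BS squad: reachability (helper92) -/

set_option autoImplicit false

namespace Pool.Agent.BS.H92

open Function Relation

variable {D V : Type} {T : TMap D V}

theorem reach_refl (Z : Set V) (x : V) : T.Reach Z x x := ReflTransGen.refl

theorem reach_trans {Z : Set V} {x y z : V} (h1 : T.Reach Z x y) (h2 : T.Reach Z y z) :
    T.Reach Z x z := ReflTransGen.trans h1 h2

theorem reach_step {Z : Set V} {x y z : V} (h1 : T.Reach Z x y) (h2 : z ∉ Z) (h3 : T.Adj y z) :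
    T.Reach Z x z := ReflTransGen.tail h1 ⟨h2, h3⟩

theorem reach_one {Z : Set V} {y z : V} (h2 : z ∉ Z) (h3 : T.Adj y z) :
    T.Reach Z y z := reach_step (reach_refl Z y) h2 h3

theorem reach_mono {Z Z' : Set V} (h : Z ⊆ Z') {x y : V} (hr : T.Reach Z' x y) :
    T.Reach Z x y := by
  induction hr with
  | refl => exact ReflTransGen.refl
  | tail _ h2 ih => exact ReflTransGen.tail ih ⟨fun h3 => h2.1 (h h3), h2.2⟩

theorem reach_notMem {Z : Set V} {x y : V} (h : T.Reach Z x y) (hx : x ∉ Z) : y ∉ Z := by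
  induction h with
  | refl => exact hx
  | tail _ h2 _ => exact h2.1

theorem reach_symm {Z : Set V} {x y : V} (h : T.Reach Z x y) (hx : x ∉ Z) :
    T.Reach Z y x := by
  induction h with
  | refl => exact reach_refl Z _
  | @tail b c h1 h2 ih =>
    exact reach_trans (reach_one (reach_notMem h1 hx) h2.2.symm) ih

/-- a path leaving `S` crosses its boundary -/
theorem reach_cross {Z S : Set V} {x y : V} (h : T.Reach Z x y) (hx : x ∈ S) (hy : y ∉ S) :
    ∃ u v, u ∈ S ∧ v ∉ S ∧ T.Adj u v ∧ T.Reach Z x u ∧ v ∉ Z := by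
  induction h with
  | refl => exact absurd hx hy
  | @tail b c h1 h2 ih =>
    by_cases hb : b ∈ S
    · exact ⟨b, c, hb, hy, h2.2, h1, h2.1⟩
    · exact ih hb

/-- functions which are constant along edges are constant along paths -/
theorem reach_const {α : Type*} {Z : Set V} {f : V → α}
    (hf : ∀ u v, u ∉ Z → v ∉ Z → T.Adj u v → f u = f v) {x y : V} (h : T.Reach Z x y)
    (hx : x ∉ Z) : f x = f y := by
  induction h with
  | refl => rfl
  | @tail b c h1 h2 ih =>
    rw [ih]
    exact hf b c (reach_notMem h1 hx) h2.1 h2.2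

/-- the whole graph is connected -/
theorem vconn (u v : V) : T.Reach ∅ u v := by
  obtain ⟨d, hd⟩ := T.star_ne u
  obtain ⟨e, he⟩ := T.star_ne v
  rw [T.mem_star] at hd he
  have key : T.Reach ∅ u (T.lf e) ∧ T.Reach ∅ u (T.rt e) := by
    refine T.dart_induction (p := fun e => T.Reach ∅ u (T.lf e) ∧ T.Reach ∅ u (T.rt e)) d ?_ ?_ ?_ ?_ e
    · have h0 : T.Reach ∅ u (T.lf d) := by rw [hd]; exact reach_refl _ _
      exact ⟨h0, reach_step h0 (Set.notMem_empty _) (TMap.adj_lf_rt d)⟩
    · intro f hf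
      have h0 : T.Reach ∅ u (T.lf (T.lam f)) := by rw [T.lf_lam]; exact hf.1
      exact ⟨h0, reach_step h0 (Set.notMem_empty _) (TMap.adj_lf_rt _)⟩
    · intro f hf
      have h0 : T.Reach ∅ u (T.lf (T.lam.symm f)) := by rw [T.lf_lam_symm]; exact hf.1
      exact ⟨h0, reach_step h0 (Set.notMem_empty _) (TMap.adj_lf_rt _)⟩
    · intro f hf
      exact ⟨hf.2, by rw [T.rt_al]; exact hf.1⟩
  rw [he] at key
  exact key.1

theorem adj_finite (v : V) : {w | T.Adj v w}.Finite := by
  refine ((T.star v).finite_toSet.image T.rt).subset ?_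
  rintro w ⟨d, h1, h2⟩
  exact ⟨d, by rw [Finset.mem_coe, T.mem_star]; exact h1, h2⟩

/-- a nonempty finite set has a boundary dart -/
theorem exists_bd [Infinite V] (H : Finset V) (hH : H.Nonempty) :
    ∃ d, T.lf d ∈ H ∧ T.rt d ∉ H := by
  obtain ⟨x, hx⟩ := hH
  obtain ⟨y, hy⟩ := Infinite.exists_notMem_finset H
  obtain ⟨u, v, hu, hv, ⟨d, rfl, rfl⟩, -, -⟩ :=
    reach_cross (S := (H : Set V)) (vconn (T := T) x y) (by exact_mod_cast hx) (by exact_mod_cast hy)
  exact ⟨d, by exact_mod_cast hu, by exact_mod_cast hv⟩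

/-! ### clusters -/

theorem mem_clu_self {c : V → Bool} {x : V} (hx : c x = true) : x ∈ T.clu c x :=
  ⟨hx, reach_refl _ _⟩

theorem clu_open {c : V → Bool} {x y : V} (hy : y ∈ T.clu c x) : c y = true := by
  obtain ⟨hx, hr⟩ := hy
  have h := reach_notMem hr (by simp [hx])
  simpa using h

theorem clu_adj {c : V → Bool} {x y z : V} (hy : y ∈ T.clu c x) (hz : c z = true)
    (h : T.Adj y z) : z ∈ T.clu c x :=
  ⟨hy.1, reach_step hy.2 (by simp [hz]) h⟩

theorem clu_mem_of_reach {c : V → Bool} {x y z : V} (hy : y ∈ T.clu c x)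
    (h : T.Reach {v | c v = false} y z) : z ∈ T.clu c x :=
  ⟨hy.1, reach_trans hy.2 h⟩

theorem clu_reach {c : V → Bool} {x y z : V} (hy : y ∈ T.clu c x) (hz : z ∈ T.clu c x) :
    T.Reach (T.clu c x)ᶜ y z := by
  have key : ∀ w, T.Reach {v | c v = false} x w → T.Reach (T.clu c x)ᶜ x w := by
    intro w hw
    induction hw with
    | refl => exact reach_refl _ _
    | @tail a b h1 h2 ih =>
      refine reach_step ih ?_ h2.2
      rw [Set.notMem_compl_iff]
      exact ⟨hy.1, ReflTransGen.tail h1 h2⟩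
  have hx : x ∉ (T.clu c x)ᶜ := by
    rw [Set.notMem_compl_iff]
    exact mem_clu_self hy.1
  exact reach_trans (reach_symm (key y hy.2) hx) (key z hz.2)

end Pool.Agent.BS.H92
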